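import Pool.Agent.Lib.MP_1a91b9_ntT.P.Lvalue

/-!
# Periods, file Ratio: the quotient `L(E/N, 1) √|d| / Ω`

The quotient is a real number; it is algebraic and a unit at every place above `2`: odd multiples of
it and of its inverse are algebraic integers.
-/

set_option autoImplicit false

namespace Pool.Agent.Lib.MP_1a91b9_ntT.Per

open NumberField IsDedekindDomain Pool.Agent.Lib.MP_1a91b9_ntT.S4

universe u

/-! ### The L-series is real on the real axis -/

theorem LSeries_conj (f : ℕ → ℤ) (s : ℂ) : (starRingEnd ℂ) (LSeries ((↑) ∘ f) s) =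
    LSeries ((↑) ∘ f) ((starRingEnd ℂ) s) := by
  rw [LSeries, LSeries, Complex.conj_tsum]
  refine tsum_congr fun n => ?_
  rw [LSeries.term_def, LSeries.term_def]
  split_ifs with h
  · exact map_zero _
  · rw [map_div₀, Complex.cpow_conj _ _ (by rw [Complex.natCast_arg]; exact Real.pi_pos.ne),
      Complex.conj_natCast]
    congr 1
    exact map_intCast (starRingEnd ℂ) (f n)

theorem WLSeries_conj {F : Type*} [Field F] [NumberField F] (W : WeierstrassCurve F) (s : ℂ) :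
    (starRingEnd ℂ) (W.LSeries s) = W.LSeries ((starRingEnd ℂ) s) := LSeries_conj _ s

theorem value_real {F : Type*} [Field F] [NumberField F] {W : WeierstrassCurve F} {g : ℂ → ℂ}
    (hg : Differentiable ℂ g) (hgs : ∀ s : ℂ, 2 < s.re → g s = W.LSeries s) :
    g 1 = ((g 1).re : ℂ) := by
  have h := entire_eq (differentiable_conj_conj hg) hg fun s hs => by
    rw [hgs s hs, hgs _ (by rw [Complex.conj_re]; exact hs), WLSeries_conj, Complex.conj_conj]
  have h1 := congrFun h 1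
  simp only [map_one] at h1
  exact (Complex.conj_eq_iff_re.1 h1).symm

theorem val_sqrt_odd {A : ValuationSubring ℂ} (hA : Two A) {d : ℤ} (hd : Odd d) :
    A.valuation ((Real.sqrt |(d : ℝ)| : ℝ) : ℂ) = 1 := by
  have h3 : ((Real.sqrt |(d : ℝ)| : ℝ) : ℂ) ^ 2 = ((|d| : ℤ) : ℂ) := by
    rw [← Complex.ofReal_pow, Real.sq_sqrt (abs_nonneg _), ← Int.cast_abs, Complex.ofReal_intCast]
  have h := congrArg A.valuation h3
  rw [map_pow, S3.v_odd hA (by rwa [odd_abs])] at h
  exact (pow_eq_one_iff_of_nonneg zero_le (by norm_num)).1 h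

/-- The analytic side of the two-part of the formula of Birch and Swinnerton-Dyer. -/
theorem bsd_ratio (N : Type u) [Field N] [NumberField N] (h : Tower N) (hd : Odd (discr N)) :
    ∃ (g : ℂ → ℂ) (R : ℝ), Differentiable ℂ g ∧ (∀ s : ℂ, 2 < s.re → g s = (E N).LSeries s) ∧
      g 1 ≠ 0 ∧
      g 1 * (Real.sqrt |(discr N : ℝ)| : ℝ) = R * (∏ v : InfinitePlace N, perAt (E N) v : ℝ) ∧
      R ≠ 0 ∧
      (∀ A : ValuationSubring ℂ, Two A → A.valuation (R : ℂ) = 1) ∧
      (∃ n : ℤ, Odd n ∧ IsIntegral ℤ (n * R)) ∧ ∃ n : ℤ, Odd n ∧ IsIntegral ℤ (n * R⁻¹) := by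
  obtain ⟨g, hg, hgs, hgA⟩ := ratio_unit N h
  have hP := prod_perAt_pos (F := N)
  set P : ℝ := ∏ v : InfinitePlace N, perAt (E N) v with hPdef
  have hd0 : (discr N : ℝ) ≠ 0 := by exact_mod_cast discr_ne_zero N
  have hs : Real.sqrt |(discr N : ℝ)| ≠ 0 := (Real.sqrt_pos.2 (abs_pos.2 hd0)).ne'
  have hre := value_real hg hgs
  have hPc : ((P : ℝ) : ℂ) ≠ 0 := by exact_mod_cast hP.ne'
  set R : ℝ := (g 1).re * Real.sqrt |(discr N : ℝ)| / P with hR
  have hRc : (R : ℂ) = g 1 / ((P : ℝ) : ℂ) * ((Real.sqrt |(discr N : ℝ)| : ℝ) : ℂ) := by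
    rw [hR]
    push_cast
    rw [← hre]
    ring
  have hval : ∀ A : ValuationSubring ℂ, Two A → A.valuation (R : ℂ) = 1 := by
    intro A hA
    rw [hRc, map_mul, hgA A hA, val_sqrt_odd hA hd, one_mul]
  obtain ⟨⟨m, hm, hm1⟩, n, hn, hn1⟩ := exists_odd_unit hval
  obtain ⟨A, hA⟩ := S3.exists_A
  have hR0 : (R : ℂ) ≠ 0 := (of_val_one (hval A hA)).1
  have hinj : Function.Injective (algebraMap ℝ ℂ) := (algebraMap ℝ ℂ).injective
  refine ⟨g, R, hg, hgs, ?_, ?_, by exact_mod_cast hR0, hval, ⟨m, hm, ?_⟩, n, hn, ?_⟩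
  · intro h0
    apply hR0
    rw [hRc, h0]
    ring
  · rw [hRc]
    field_simp
  · rw [← isIntegral_algebraMap_iff hinj]
    have e : algebraMap ℝ ℂ (m * R) = (m : ℂ) * (R : ℂ) := by
      rw [map_mul, map_intCast]
      rfl
    rwa [e]
  · rw [← isIntegral_algebraMap_iff hinj]
    have e : algebraMap ℝ ℂ (n * R⁻¹) = (n : ℂ) * (R : ℂ)⁻¹ := by
      rw [map_mul, map_intCast, map_inv₀]
      rfl
    rwa [e]

end Pool.Agent.Lib.MP_1a91b9_ntT.Per
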