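import Pool.Agent.Lib.MP_1a91b9_ntT.P.Real

/-!
# Periods, file Unit: the product of the archimedean periods, two-adic valuations
-/

set_option autoImplicit false

namespace Pool.Agent.Lib.MP_1a91b9_ntT.Per

open NumberField

noncomputable section

theorem E_map {F G : Type*} [Field F] [Field G] (f : F →+* G) : (E F).map f = E G := by
  simp [E, WeierstrassCurve.map]

/-- The period at every infinite place. -/
theorem perAt_E {F : Type*} [Field F] (v : InfinitePlace F) :
    perAt (E F) v = Real.sqrt 3 * ‖Om‖ ^ v.mult := by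
  rw [perAt]
  split_ifs with h
  · rw [E_map, perR_E, InfinitePlace.mult, if_pos h, pow_one]
  · rw [E_map, perC_E, InfinitePlace.mult, if_neg h]
    ring

/-- The product of the periods. -/
theorem prod_perAt {F : Type*} [Field F] [NumberField F] :
    ∏ v : InfinitePlace F, perAt (E F) v =
      Real.sqrt 3 ^ (Fintype.card (InfinitePlace F)) * ‖Om‖ ^ (Module.finrank ℚ F) := by
  simp only [perAt_E]
  rw [Finset.prod_mul_distrib, Finset.prod_const, Finset.card_univ, Finset.prod_pow_eq_pow_sum,
    InfinitePlace.sum_mult_eq]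

/-- `‖Om‖ / Om` is a twelfth root of unity. -/
theorem norm_div_Om : (((‖Om‖ : ℝ) : ℂ) / Om) ^ 6 = -1 := by
  have h6 : ((‖Om‖ ^ 6 : ℝ) : ℂ) ≠ 0 := by
    exact_mod_cast pow_ne_zero 6 (norm_ne_zero_iff.2 Om_ne_zero)
  rw [div_pow, Om_pow_real, div_neg, ← Complex.ofReal_pow, div_self h6]

theorem norm_Om_twelve : ((‖Om‖ : ℝ) : ℂ) ^ 12 = Om ^ 12 := by
  have h := norm_div_Om
  rw [div_pow, div_eq_iff (pow_ne_zero 6 Om_ne_zero)] at h
  linear_combination (((‖Om‖ : ℝ) : ℂ) ^ 6 - Om ^ 6) * h

section

variable {A : ValuationSubring ℂ}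

theorem val_norm_Om : A.valuation ((‖Om‖ : ℝ) : ℂ) = A.valuation Om := by
  have h := congrArg A.valuation norm_Om_twelve
  rw [map_pow, map_pow] at h
  exact (pow_left_inj₀ zero_le zero_le (by norm_num)).1 h

theorem val_sqrt_three (hA : Two A) : A.valuation ((Real.sqrt 3 : ℝ) : ℂ) = 1 := by
  have h3 : ((Real.sqrt 3 : ℝ) : ℂ) ^ 2 = ((3 : ℤ) : ℂ) := by
    rw [← Complex.ofReal_pow, Real.sq_sqrt (by norm_num)]
    norm_num
  have h := congrArg A.valuation h3
  rw [map_pow, S3.v_odd hA (by decide)] at h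
  exact (pow_eq_one_iff_of_nonneg zero_le (by norm_num)).1 h

/-- The two-adic valuation of the product of the periods. -/
theorem val_prod (hA : Two A) {F : Type*} [Field F] [NumberField F] :
    A.valuation ((∏ v : InfinitePlace F, perAt (E F) v : ℝ) : ℂ) =
      A.valuation Om ^ (Module.finrank ℚ F) := by
  rw [prod_perAt, Complex.ofReal_mul, Complex.ofReal_pow, Complex.ofReal_pow, map_mul, map_pow,
    map_pow, val_sqrt_three hA, val_norm_Om, one_pow, one_mul]

end

theorem prod_perAt_pos {F : Type*} [Field F] [NumberField F] :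
    0 < ∏ v : InfinitePlace F, perAt (E F) v := by
  have h := norm_pos_iff.2 Om_ne_zero
  rw [prod_perAt]
  positivity

end

end Pool.Agent.Lib.MP_1a91b9_ntT.Per
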