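import Pool.Agent.Lib.MP_1a91b9_ntT.S3.Main

/-!
# Periods, file Wp: the Weierstrass function of `ℤ[zt]` is surjective and injective up to sign
-/

set_option autoImplicit false

namespace Pool.Agent.Lib.MP_1a91b9_ntT.Per

open Complex Filter Topology

noncomputable section

/-- The zeros of the derivative are the points of order two. -/
theorem Q_zero {z : ℂ} (hz : z ∉ PP.lattice) (h : PP.derivWeierstrassP z = 0) :
    2 * z ∈ PP.lattice := by
  by_contra hc
  have h1 := S3.dup hc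
  have h2 := S3.diff_eq hz
  rw [h, mul_zero] at h1
  have h3 : PP.weierstrassP z ^ 2 = 0 := by linear_combination -h1 / 3
  have h4 : PP.weierstrassP z = 0 := by simpa using h3
  rw [h, h4] at h2
  exact pow_ne_zero 6 Om_ne_zero (by linear_combination -h2)

theorem Q_ne {z : ℂ} (hz : 2 * z ∉ PP.lattice) : PP.derivWeierstrassP z ≠ 0 :=
  fun h => hz (Q_zero (S3.notMem_of_two_mul hz) h)

/-- Injectivity up to sign. -/
theorem P_inj {w z : ℂ} (hw : 2 * w ∉ PP.lattice) (hz : z ∉ PP.lattice)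
    (h : PP.weierstrassP z = PP.weierstrassP w) : z - w ∈ PP.lattice ∨ z + w ∈ PP.lattice :=
  S3.P_inj hw (Q_ne hw) hz h

/-- The Weierstrass function tends to infinity at `0`. -/
theorem tendsto_sq_P : Tendsto (fun z => z ^ 2 * PP.weierstrassP z) (𝓝[≠] 0) (𝓝 1) := by
  have h1 : Tendsto (fun z => S3.Pr z * (z ^ 0)⁻¹) (𝓝[≠] 0) (𝓝 0) := S3.tendsto_Pr (by norm_num)
  have h2 : Tendsto (fun z : ℂ => z ^ 2) (𝓝[≠] 0) (𝓝 0) := by
    have h3 : ContinuousAt (fun z : ℂ => z ^ 2) 0 := by fun_prop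
    have h4 := h3.tendsto
    rw [zero_pow (by norm_num)] at h4
    exact h4.mono_left nhdsWithin_le_nhds
  have h5 := (h2.mul h1).const_add 1
  rw [mul_zero, add_zero] at h5
  refine h5.congr' ?_
  filter_upwards [self_mem_nhdsWithin] with z hz
  have hz0 : z ≠ 0 := hz
  rw [S3.P_eq z, mul_add, mul_inv_cancel₀ (pow_ne_zero 2 hz0), pow_zero, inv_one, mul_one]

/-- Surjectivity. -/
theorem P_surj (c : ℂ) : ∃ z, z ∉ PP.lattice ∧ PP.weierstrassP z = c := by
  by_contra hc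
  push Not at hc
  have hS : ∀ z : ℂ, ∀ᶠ w in 𝓝[≠] z, w ∉ (PP.lattice : Set ℂ) := fun z => S3.eventually_notMem z
  set F : ℂ → ℂ := fun z => (PP.weierstrassP z - c)⁻¹ with hF
  have hd : ∀ z ∉ (PP.lattice : Set ℂ), DifferentiableAt ℂ F z := fun z hz =>
    ((S3.hasDerivAt_P hz).differentiableAt.sub_const c).inv (sub_ne_zero.2 (hc z hz))
  have hp : ∀ l ∈ PP.lattice, ∀ z, F (z + l) = F z := by
    intro l hl z
    rw [hF]
    simp only
    rw [S3.P_add hl]
  have h0 : Tendsto F (𝓝[≠] 0) (𝓝 0) := by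
    have h2 : Tendsto (fun z : ℂ => z ^ 2) (𝓝[≠] 0) (𝓝 0) := by
      have h3 : ContinuousAt (fun z : ℂ => z ^ 2) 0 := by fun_prop
      have h4 := h3.tendsto
      rw [zero_pow (by norm_num)] at h4
      exact h4.mono_left nhdsWithin_le_nhds
    have h5 := tendsto_sq_P.sub (h2.mul_const c)
    rw [zero_mul, sub_zero] at h5
    have h6 := h2.mul (h5.inv₀ one_ne_zero)
    rw [zero_mul] at h6
    refine h6.congr' ?_
    filter_upwards [self_mem_nhdsWithin] with z hz
    have hz0 : z ≠ 0 := hz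
    rw [← mul_sub, mul_inv, ← mul_assoc, mul_inv_cancel₀ (pow_ne_zero 2 hz0), one_mul]
  have hb : ∀ s ∈ (PP.lattice : Set ℂ), Tendsto (fun z => (z - s) * F z) (𝓝[≠] s) (𝓝 0) :=
    fun s hs => S3.tendsto_mul_zero (S3.tendsto_at_lattice hp h0 hs)
  have h1 := S3.liouville_eq hS hd hb hp h0 (1 / 2) S3.half_notMem
  have h2 : PP.weierstrassP (1 / 2) - c ≠ 0 := sub_ne_zero.2 (hc _ S3.half_notMem)
  exact inv_ne_zero h2 h1

/-! ### Complex conjugation -/

/-- Conjugation as a permutation of the lattice. -/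
def conjE : PP.lattice ≃ PP.lattice where
  toFun l := ⟨(starRingEnd ℂ) l, S3.conj_mem l.2⟩
  invFun l := ⟨(starRingEnd ℂ) l, S3.conj_mem l.2⟩
  left_inv _ := Subtype.ext (Complex.conj_conj _)
  right_inv _ := Subtype.ext (Complex.conj_conj _)

theorem P_conj (z : ℂ) : PP.weierstrassP ((starRingEnd ℂ) z) =
    (starRingEnd ℂ) (PP.weierstrassP z) := by
  simp only [PeriodPair.weierstrassP]
  rw [← conjE.tsum_eq, Complex.conj_tsum]
  refine tsum_congr fun l => ?_
  show 1 / ((starRingEnd ℂ) z - (starRingEnd ℂ) l) ^ 2 - 1 / ((starRingEnd ℂ) (l : ℂ)) ^ 2 = _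
  rw [map_sub, map_div₀, map_div₀, map_pow, map_pow, map_sub, map_one]

theorem Q_conj (z : ℂ) : PP.derivWeierstrassP ((starRingEnd ℂ) z) =
    (starRingEnd ℂ) (PP.derivWeierstrassP z) := by
  simp only [PeriodPair.derivWeierstrassP]
  rw [← conjE.tsum_eq, map_neg, Complex.conj_tsum]
  congr 1
  refine tsum_congr fun l => ?_
  show 2 / ((starRingEnd ℂ) z - (starRingEnd ℂ) l) ^ 3 = _
  rw [map_div₀, map_pow, map_sub, Complex.conj_ofNat]

theorem g3_conj : (starRingEnd ℂ) PP.g₃ = PP.g₃ := by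
  rw [PeriodPair.g₃, map_mul, Complex.conj_ofNat]
  congr 1
  rw [PeriodPair.G, Complex.conj_tsum, ← conjE.tsum_eq]
  refine tsum_congr fun l => ?_
  show (starRingEnd ℂ) ((starRingEnd ℂ) (l : ℂ) ^ 6)⁻¹ = _
  rw [map_inv₀, map_pow, Complex.conj_conj]

end

end Pool.Agent.Lib.MP_1a91b9_ntT.Per
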