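import Pool.Agent.Lib.MP_1a91b9_ntT.P.Coord

/-!
# Periods, file Area: the area of `E(ℂ)` for `E : y² + y = x³`
-/

set_option autoImplicit false

namespace Pool.Agent.Lib.MP_1a91b9_ntT.Per

open Complex MeasureTheory Set

noncomputable section

/-- The open half cell. -/
def HH : Set ℂ := {z | ss z ∈ Ioo (0 : ℝ) 1 ∧ tt z ∈ Ioo (0 : ℝ) (1 / 2)}

/-- The closed half cell. -/
def HC : Set ℂ := {z | ss z ∈ Icc (0 : ℝ) 1 ∧ tt z ∈ Icc (0 : ℝ) (1 / 2)}

theorem HH_two {z : ℂ} (hz : z ∈ HH) : 2 * z ∉ PP.lattice := by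
  intro h
  obtain ⟨-, n, hn⟩ := mem_coord.1 h
  rw [two_mul, tt_add] at hn
  have h1 := hz.2.1
  have h2 := hz.2.2
  have h3 : (0 : ℝ) < n := by linarith
  have h4 : (n : ℝ) < 1 := by linarith
  have h5 : 0 < n := by exact_mod_cast h3
  have h6 : n < 1 := by exact_mod_cast h4
  omega

theorem HH_notMem {z : ℂ} (hz : z ∈ HH) : z ∉ PP.lattice := S3.notMem_of_two_mul (HH_two hz)

theorem int_zero {n : ℤ} {r : ℝ} (h : r = n) (h1 : -1 < r) (h2 : r < 1) : r = 0 := by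
  rw [h] at h1 h2 ⊢
  have h5 : -1 < n := by exact_mod_cast h1
  have h6 : n < 1 := by exact_mod_cast h2
  have h7 : n = 0 := by omega
  rw [h7, Int.cast_zero]

theorem HH_inj {z w : ℂ} (hz : z ∈ HH) (hw : w ∈ HH)
    (h : PP.weierstrassP z = PP.weierstrassP w) : z = w := by
  have a1 := hz.1.1
  have a2 := hz.1.2
  have a3 := hz.2.1
  have a4 := hz.2.2
  have b1 := hw.1.1
  have b2 := hw.1.2
  have b3 := hw.2.1
  have b4 := hw.2.2
  rcases P_inj (HH_two hw) (HH_notMem hz) h with h1 | h1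
  · obtain ⟨⟨m, hm⟩, n, hn⟩ := mem_coord.1 h1
    rw [ss_sub] at hm
    rw [tt_sub] at hn
    have e1 := int_zero hm (by linarith) (by linarith)
    have e2 := int_zero hn (by linarith) (by linarith)
    rw [← coord z, ← coord w, sub_eq_zero.1 e1, sub_eq_zero.1 e2]
  · obtain ⟨-, n, hn⟩ := mem_coord.1 h1
    rw [tt_add] at hn
    have e2 := int_zero hn (by linarith) (by linarith)
    exfalso
    linarith

theorem measurable_HH : MeasurableSet HH :=
  (continuous_ss.measurable measurableSet_Ioo).inter (continuous_tt.measurable measurableSet_Ioo)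

theorem vol_HH : volume HH = ENNReal.ofReal (|zt.im| * (1 / 2)) := by
  rw [HH, vol_box measurableSet_Ioo measurableSet_Ioo, Real.volume_Ioo, Real.volume_Ioo,
    ← ENNReal.ofReal_mul (by norm_num), ← ENNReal.ofReal_mul (abs_nonneg _)]
  norm_num

theorem vol_HC : volume HC = ENNReal.ofReal (|zt.im| * (1 / 2)) := by
  rw [HC, vol_box measurableSet_Icc measurableSet_Icc, Real.volume_Icc, Real.volume_Icc,
    ← ENNReal.ofReal_mul (by norm_num), ← ENNReal.ofReal_mul (abs_nonneg _)]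
  norm_num

theorem HH_sub : HH ⊆ HC := fun _ hz =>
  ⟨⟨hz.1.1.le, hz.1.2.le⟩, ⟨hz.2.1.le, hz.2.2.le⟩⟩

theorem vol_diff : volume (HC \ HH) = 0 := by
  rw [measure_sdiff HH_sub measurable_HH.nullMeasurableSet (by rw [vol_HH]; exact ENNReal.ofReal_ne_top),
    vol_HH, vol_HC, tsub_self]

/-- Reduction to the closed half cell. -/
theorem reduce {z : ℂ} (hz : z ∉ PP.lattice) : ∃ w ∈ HC, w ∉ PP.lattice ∧
    PP.weierstrassP w = PP.weierstrassP z := by
  obtain ⟨w, hw1, hw2, hw3, hw4⟩ : ∃ w, ss w ∈ Ico (0 : ℝ) 1 ∧ tt w ∈ Ico (0 : ℝ) 1 ∧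
      w ∉ PP.lattice ∧ PP.weierstrassP w = PP.weierstrassP z := by
    have hl : ((⌊ss z⌋ : ℤ) : ℂ) + (⌊tt z⌋ : ℤ) * zt ∈ PP.lattice := S3.mem_PP.2 ⟨_, _, rfl⟩
    have e : ((⌊ss z⌋ : ℤ) : ℂ) + (⌊tt z⌋ : ℤ) * zt =
        (((⌊ss z⌋ : ℤ) : ℝ) : ℂ) + (((⌊tt z⌋ : ℤ) : ℝ) : ℂ) * zt := by push_cast; rfl
    refine ⟨z - (((⌊ss z⌋ : ℤ) : ℂ) + (⌊tt z⌋ : ℤ) * zt), ?_, ?_, ?_, ?_⟩
    · rw [ss_sub, e, ss_mk]
      exact ⟨by linarith [Int.floor_le (ss z)], by linarith [Int.lt_floor_add_one (ss z)]⟩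
    · rw [tt_sub, e, tt_mk]
      exact ⟨by linarith [Int.floor_le (tt z)], by linarith [Int.lt_floor_add_one (tt z)]⟩
    · intro h
      apply hz
      have h1 := add_mem h hl
      rwa [sub_add_cancel] at h1
    · rw [sub_eq_add_neg]
      exact S3.P_add (neg_mem hl) z
  rcases le_or_gt (tt w) (1 / 2) with h | h
  · exact ⟨w, ⟨⟨hw1.1, hw1.2.le⟩, ⟨hw2.1, h⟩⟩, hw3, hw4⟩
  · have hl : (1 : ℂ) + zt ∈ PP.lattice := add_mem S3.one_mem S3.zt_mem
    have e : (1 : ℂ) + zt = ((1 : ℝ) : ℂ) + ((1 : ℝ) : ℂ) * zt := by push_cast; ring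
    refine ⟨(1 + zt) - w, ⟨?_, ?_⟩, ?_, ?_⟩
    · rw [ss_sub, e, ss_mk]
      exact ⟨by linarith [hw1.2], by linarith [hw1.1]⟩
    · rw [tt_sub, e, tt_mk]
      exact ⟨by linarith [hw2.2], by linarith⟩
    · intro h1
      apply hw3
      have h2 := sub_mem hl h1
      rwa [sub_sub_cancel] at h2
    · rw [← hw4, sub_eq_neg_add, S3.P_add hl, PeriodPair.weierstrassP_neg]

/-- The coordinate function `x`. -/
def XX (z : ℂ) : ℂ := PP.weierstrassP z / Om ^ 2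

theorem hasDerivAt_XX {z : ℂ} (hz : z ∉ PP.lattice) :
    HasDerivAt XX (PP.derivWeierstrassP z / Om ^ 2) z := (S3.hasDerivAt_P hz).div_const _

theorem XX_image_compl : (XX '' HH)ᶜ ⊆ XX '' ((HC \ HH) \ PP.lattice) := by
  intro c hc
  obtain ⟨z, hz, h⟩ := P_surj (c * Om ^ 2)
  obtain ⟨w, hw, hw1, hw2⟩ := reduce hz
  have e : XX w = c := by
    rw [XX, hw2, h, mul_div_cancel_right₀ _ (pow_ne_zero 2 Om_ne_zero)]
  refine ⟨w, ⟨⟨hw, fun hh => hc ⟨w, hh, e⟩⟩, hw1⟩, e⟩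

theorem vol_compl : volume (XX '' HH)ᶜ = 0 := by
  refine measure_mono_null XX_image_compl ?_
  refine addHaar_image_eq_zero_of_differentiableOn_of_addHaar_eq_zero volume ?_
    (measure_mono_null sdiff_subset vol_diff)
  intro z hz
  exact ((hasDerivAt_XX hz.2).differentiableAt.restrictScalars ℝ).differentiableWithinAt

theorem XX_curve {z : ℂ} (hz : z ∉ PP.lattice) :
    4 * XX z ^ 3 + 1 = PP.derivWeierstrassP z ^ 2 / Om ^ 6 := by
  rw [S3.diff_eq hz, XX]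
  field_simp [Om_ne_zero]

/-- The real derivative of `XX`. -/
def XXd (z : ℂ) : ℂ →L[ℝ] ℂ :=
  (ContinuousLinearMap.toSpanSingleton ℂ (PP.derivWeierstrassP z / Om ^ 2)).restrictScalars ℝ

theorem det_XXd (z : ℂ) : (XXd z).det = ‖PP.derivWeierstrassP z / Om ^ 2‖ ^ 2 := by
  have h1 : ((XXd z : ℂ →L[ℝ] ℂ) : ℂ →ₗ[ℝ] ℂ) =
      (LinearMap.mulLeft ℝ (PP.derivWeierstrassP z / Om ^ 2)) := by
    ext <;> simp [XXd, mul_comm]
  rw [ContinuousLinearMap.det, h1, ← Complex.normSq_eq_norm_sq, ← Algebra.norm_complex_apply,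
    Algebra.norm_apply]
  rfl

theorem hasFDerivAt_XX {z : ℂ} (hz : z ∉ PP.lattice) : HasFDerivAt XX (XXd z) z :=
  (hasDerivAt_XX hz).hasFDerivAt.restrictScalars ℝ

theorem XX_injOn : InjOn XX HH := by
  intro z hz w hw h
  apply HH_inj hz hw
  rw [XX, XX] at h
  exact (div_left_inj' (pow_ne_zero 2 Om_ne_zero)).1 h

theorem jac {z : ℂ} (hz : z ∈ HH) :
    |(XXd z).det| • ‖4 * XX z ^ 3 + 1‖⁻¹ = ‖Om‖ ^ 2 := by
  have h1 : ‖PP.derivWeierstrassP z‖ ≠ 0 := norm_ne_zero_iff.2 (Q_ne (HH_two hz))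
  have h2 : ‖Om‖ ≠ 0 := norm_ne_zero_iff.2 Om_ne_zero
  rw [det_XXd, XX_curve (HH_notMem hz), abs_of_nonneg (by positivity), smul_eq_mul, norm_div,
    norm_div, norm_pow, norm_pow, norm_pow]
  field_simp

theorem restrict_XX : (volume : Measure ℂ).restrict (XX '' HH) = volume := by
  apply Measure.restrict_eq_self_of_ae_mem
  rw [ae_iff]
  exact vol_compl

theorem integrable_g : Integrable (fun x : ℂ => ‖4 * x ^ 3 + 1‖⁻¹) := by
  have h1 := (integrableOn_image_iff_integrableOn_abs_det_fderiv_smul volume measurable_HH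
    (fun z hz => (hasFDerivAt_XX (HH_notMem hz)).hasFDerivWithinAt) XX_injOn
    (fun x : ℂ => ‖4 * x ^ 3 + 1‖⁻¹)).2 (by
      have h2 : IntegrableOn (fun _ : ℂ => ‖Om‖ ^ 2) HH :=
        integrableOn_const (by rw [vol_HH]; exact ENNReal.ofReal_ne_top)
      exact h2.congr_fun (fun z hz => (jac hz).symm) measurable_HH)
  rwa [IntegrableOn, restrict_XX] at h1

theorem integral_g : ∫ x : ℂ, ‖4 * x ^ 3 + 1‖⁻¹ = Real.sqrt 3 / 4 * ‖Om‖ ^ 2 := by
  have h1 := integral_image_eq_integral_abs_det_fderiv_smul volume measurable_HH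
    (fun z hz => (hasFDerivAt_XX (HH_notMem hz)).hasFDerivWithinAt) XX_injOn
    (fun x : ℂ => ‖4 * x ^ 3 + 1‖⁻¹)
  rw [restrict_XX, setIntegral_congr_fun measurable_HH (fun z hz => jac hz), setIntegral_const,
    smul_eq_mul, measureReal_def, vol_HH, ENNReal.toReal_ofReal (by positivity), zt_im] at h1
  rw [h1, abs_of_nonneg (by positivity)]
  ring

end

end Pool.Agent.Lib.MP_1a91b9_ntT.Per
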