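import Pool.Agent.Lib.MP_1a91b9_ntT.Base

/-!
# Periods: definitions

For a Weierstrass equation `W` with invariant differential `ω = dx / (2 y + a₁ x + a₃)`, `perR W` is
the integral of `|ω|` over the real points, and `perC W` is the integral over the complex points of
the area element `|dx|² / |2 y + a₁ x + a₃|²`.  The integral of `|ω ∧ \bar ω|` over the complex
points is `2 * perC W`.
-/

set_option autoImplicit false

namespace Pool.Agent.Lib.MP_1a91b9_ntT.Per

open MeasureTheory

noncomputable section

/-- The integral of `|ω|` over the real points of a Weierstrass equation over `ℝ`. -/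
def perR (W : WeierstrassCurve ℝ) : ℝ :=
  ∫ x : ℝ, ∑' y : {y : ℝ // W.toAffine.Equation x y}, |2 * (y : ℝ) + W.a₁ * x + W.a₃|⁻¹

/-- The area of the complex points of a Weierstrass equation over `ℂ`. -/
def perC (W : WeierstrassCurve ℂ) : ℝ :=
  ∫ x : ℂ, ∑' y : {y : ℂ // W.toAffine.Equation x y}, (‖2 * (y : ℂ) + W.a₁ * x + W.a₃‖ ^ 2)⁻¹

open Classical in
/-- The period of a Weierstrass equation over a number field at an infinite place: the integral of
`|ω|` over the real points at a real place, the integral of `|ω ∧ \bar ω|` over the complex points
at a complex place. -/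
def perAt {F : Type*} [Field F] (W : WeierstrassCurve F) (v : NumberField.InfinitePlace F) : ℝ :=
  if h : v.IsReal then perR (W.map (NumberField.InfinitePlace.embedding_of_isReal h))
  else 2 * perC (W.map v.embedding)

end

end Pool.Agent.Lib.MP_1a91b9_ntT.Per
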