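import Pool.Agent.Lib.MP_1a91b9_ntT.P.Defs
import Pool.Agent.Lib.MP_1a91b9_ntT.P.Area

/-!
# Periods, file Fib: sums over the fibres of `x`, the complex period
-/

set_option autoImplicit false

namespace Pool.Agent.Lib.MP_1a91b9_ntT.Per

open MeasureTheory

noncomputable section

theorem E_eq {F : Type*} [Field F] {x y : F} :
    (E F).toAffine.Equation x y ↔ y ^ 2 + y = x ^ 3 := by
  rw [WeierstrassCurve.Affine.equation_iff]
  show y ^ 2 + 0 * x * y + 1 * y = x ^ 3 + 0 * x ^ 2 + 0 * x + 0 ↔ _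
  constructor <;> intro h <;> linear_combination h

theorem E_iff {F : Type*} [Field F] [CharZero F] {x y d : F} (hd : d ^ 2 = 4 * x ^ 3 + 1) :
    (E F).toAffine.Equation x y ↔ y = (-1 + d) / 2 ∨ y = (-1 - d) / 2 := by
  rw [E_eq]
  constructor
  · intro h
    have h1 : (2 * y + 1 - d) * (2 * y + 1 + d) = 0 := by linear_combination 4 * h - hd
    rcases mul_eq_zero.1 h1 with h2 | h2
    · left
      linear_combination h2 / 2
    · right
      linear_combination h2 / 2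
  · rintro (rfl | rfl)
    · linear_combination hd / 4
    · linear_combination hd / 4

theorem fib_sum {F : Type*} [Field F] [CharZero F] {x d : F} (hd : d ^ 2 = 4 * x ^ 3 + 1)
    (h0 : d ≠ 0) (f : F → ℝ) :
    ∑' y : {y : F // (E F).toAffine.Equation x y}, f y = f ((-1 + d) / 2) + f ((-1 - d) / 2) := by
  classical
  have hne : (-1 + d) / 2 ≠ (-1 - d) / 2 := by
    intro h
    apply h0
    have h1 : (2 : F) ≠ 0 := two_ne_zero
    have h2 := (div_left_inj' h1).1 h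
    have h3 : 2 * d = 0 := by linear_combination h2
    simpa using h3
  have e : {y : F | (E F).toAffine.Equation x y} =
      (({(-1 + d) / 2, (-1 - d) / 2} : Finset F) : Set F) := by
    ext y
    rw [Finset.coe_pair, Set.mem_ofPred_eq, E_iff hd]
    rfl
  show ∑' y : ({y : F | (E F).toAffine.Equation x y} : Set F), f y = _
  rw [e, Finset.tsum_subtype', Finset.sum_pair hne]

theorem fib_sum_zero {F : Type*} [Field F] [CharZero F] {x : F} (hx : 4 * x ^ 3 + 1 = 0)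
    (f : F → ℝ) (hf : f ((-1) / 2) = 0) :
    ∑' y : {y : F // (E F).toAffine.Equation x y}, f y = 0 := by
  have h : ∀ y : {y : F // (E F).toAffine.Equation x y}, f y = 0 := by
    rintro ⟨y, hy⟩
    have hd : (0 : F) ^ 2 = 4 * x ^ 3 + 1 := by rw [hx]; ring
    rw [E_iff hd, add_zero, sub_zero, or_self] at hy
    show f y = 0
    rw [hy, hf]
  rw [tsum_congr h, tsum_zero]

theorem fib_C (x : ℂ) : ∑' y : {y : ℂ // (E ℂ).toAffine.Equation x y},
    (‖2 * (y : ℂ) + (E ℂ).a₁ * x + (E ℂ).a₃‖ ^ 2)⁻¹ = 2 * ‖4 * x ^ 3 + 1‖⁻¹ := by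
  show ∑' y : {y : ℂ // (E ℂ).toAffine.Equation x y}, (‖2 * (y : ℂ) + 0 * x + 1‖ ^ 2)⁻¹ = _
  rcases eq_or_ne (4 * x ^ 3 + 1) 0 with h | h
  · rw [h, fib_sum_zero h (fun y => (‖2 * (y : ℂ) + 0 * x + 1‖ ^ 2)⁻¹) (by norm_num)]
    norm_num
  · obtain ⟨d, hd⟩ := IsAlgClosed.exists_pow_nat_eq (4 * x ^ 3 + 1) (n := 2) (by norm_num)
    have h0 : d ≠ 0 := by
      rintro rfl
      apply h
      rw [← hd]
      ring
    rw [fib_sum hd h0 (fun y => (‖2 * (y : ℂ) + 0 * x + 1‖ ^ 2)⁻¹)]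
    have e1 : 2 * ((-1 + d) / 2) + 0 * x + 1 = d := by ring
    have e2 : 2 * ((-1 - d) / 2) + 0 * x + 1 = -d := by ring
    rw [e1, e2, norm_neg, ← norm_pow, hd, two_mul]

theorem fib_R (x : ℝ) : ∑' y : {y : ℝ // (E ℝ).toAffine.Equation x y},
    |2 * (y : ℝ) + (E ℝ).a₁ * x + (E ℝ).a₃|⁻¹ = 2 * (Real.sqrt (4 * x ^ 3 + 1))⁻¹ := by
  show ∑' y : {y : ℝ // (E ℝ).toAffine.Equation x y}, |2 * (y : ℝ) + 0 * x + 1|⁻¹ = _
  rcases lt_trichotomy (4 * x ^ 3 + 1) 0 with h | h | h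
  · have he : IsEmpty {y : ℝ // (E ℝ).toAffine.Equation x y} := by
      refine ⟨?_⟩
      rintro ⟨y, hy⟩
      rw [E_eq] at hy
      nlinarith [sq_nonneg (2 * y + 1)]
    rw [tsum_empty, Real.sqrt_eq_zero_of_nonpos h.le]
    norm_num
  · rw [h, fib_sum_zero h (fun y => |2 * (y : ℝ) + 0 * x + 1|⁻¹) (by norm_num)]
    norm_num
  · have hd := Real.sq_sqrt h.le
    have h0 := Real.sqrt_pos.2 h
    rw [fib_sum hd h0.ne' (fun y => |2 * (y : ℝ) + 0 * x + 1|⁻¹)]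
    have e1 : 2 * ((-1 + √(4 * x ^ 3 + 1)) / 2) + 0 * x + 1 = √(4 * x ^ 3 + 1) := by ring
    have e2 : 2 * ((-1 - √(4 * x ^ 3 + 1)) / 2) + 0 * x + 1 = -√(4 * x ^ 3 + 1) := by ring
    rw [e1, e2, abs_neg, abs_of_pos h0, two_mul]

/-- The complex period. -/
theorem perC_E : perC (E ℂ) = Real.sqrt 3 / 2 * ‖Om‖ ^ 2 := by
  rw [perC]
  simp only [fib_C]
  rw [integral_const_mul, integral_g]
  ring

theorem integrable_C : Integrable (fun x : ℂ => ∑' y : {y : ℂ // (E ℂ).toAffine.Equation x y},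
    (‖2 * (y : ℂ) + (E ℂ).a₁ * x + (E ℂ).a₃‖ ^ 2)⁻¹) := by
  simp only [fib_C]
  exact integrable_g.const_mul 2

end

end Pool.Agent.Lib.MP_1a91b9_ntT.Per
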