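import Mathlib

/-!
# Periods, file Integral: the elements of all the valuation rings of `ℂ` above `2`
-/

set_option autoImplicit false

namespace Pool.Agent.Lib.MP_1a91b9_ntT.Per

open Polynomial Algebra

/-- An element of `ℂ` which lies in all the valuation rings of `ℂ` in which `2` is not invertible
is algebraic, and an odd multiple of it is an algebraic integer. -/
theorem exists_odd_isIntegral {x : ℂ} (h : ∀ A : ValuationSubring ℂ, (2 : ℂ)⁻¹ ∉ A → x ∈ A) :
    ∃ n : ℤ, Odd n ∧ IsIntegral ℤ ((n : ℂ) * x) := by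
  rcases eq_or_ne x 0 with rfl | hx
  · exact ⟨1, odd_one, by rw [mul_zero]; exact isIntegral_zero⟩
  have hx' : x⁻¹ ≠ 0 := inv_ne_zero hx
  let _ := invertibleOfNonzero hx'
  set B := Algebra.adjoin ℤ {x⁻¹} with hB
  set xinv : B := ⟨x⁻¹, Algebra.subset_adjoin rfl⟩ with hxinv
  by_cases hI : (Ideal.span {(2 : ℤ)}).map (algebraMap ℤ B) ⊔ Ideal.span {xinv} = ⊤
  · obtain ⟨p, hp1, hp2⟩ := exists_aeval_invOf_eq_zero_of_idealMap_adjoin_sup_span_eq_top
      x⁻¹ (Ideal.span {(2 : ℤ)}) (by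
        rw [Ne, Ideal.span_singleton_eq_top]
        decide) hI
    rw [invOf_eq_inv, inv_inv] at hp2
    refine ⟨p.leadingCoeff, ?_, ?_⟩
    · rw [Ideal.mem_span_singleton] at hp1
      obtain ⟨k, hk⟩ := hp1
      exact ⟨k, by linarith⟩
    · have := isIntegral_leadingCoeff_smul p x hp2
      rwa [zsmul_eq_mul] at this
  · exfalso
    obtain ⟨V, hV1, hV2⟩ := Ideal.image_subset_nonunits_valuationSubring
      (A := B.toSubring) ((Ideal.span {(2 : ℤ)}).map (algebraMap ℤ B) ⊔ Ideal.span {xinv}) hI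
    have h2 : (2 : ℂ)⁻¹ ∉ V := by
      have h3 : (2 : ℂ) ∈ V.nonunits := by
        refine hV2 ⟨algebraMap ℤ B 2, le_sup_left (α := Ideal B)
          (Ideal.mem_map_of_mem _ (Ideal.mem_span_singleton_self _)), ?_⟩
        show ((algebraMap ℤ B 2 : B) : ℂ) = 2
        rw [map_ofNat]
        rfl
      rcases V.mem_nonunits_iff_or.1 h3 with h4 | h4
      · norm_num at h4
      · exact h4
    have h3 : x⁻¹ ∈ V.nonunits := hV2 ⟨xinv, le_sup_right (α := Ideal B)
      (Ideal.mem_span_singleton_self _), rfl⟩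
    rcases V.mem_nonunits_iff_or.1 h3 with h4 | h4
    · exact hx' h4
    · rw [inv_inv] at h4
      exact h4 (h V h2)

/-- An element of `ℂ` which is a unit of all the valuation rings above `2`. -/
theorem exists_odd_unit {x : ℂ} (h : ∀ A : ValuationSubring ℂ, (2 : ℂ)⁻¹ ∉ A → A.valuation x = 1) :
    (∃ n : ℤ, Odd n ∧ IsIntegral ℤ ((n : ℂ) * x)) ∧
      ∃ n : ℤ, Odd n ∧ IsIntegral ℤ ((n : ℂ) * x⁻¹) := by
  constructor
  · refine exists_odd_isIntegral fun A hA => ?_
    rw [← A.valuation_le_one_iff, h A hA]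
  · refine exists_odd_isIntegral fun A hA => ?_
    rw [← A.valuation_le_one_iff, map_inv₀, h A hA, inv_one]

end Pool.Agent.Lib.MP_1a91b9_ntT.Per
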