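import Pool.Agent.Lib.MP_1a91b9_ntT.P.Unit
import Pool.Agent.Lib.MP_1a91b9_ntT.P.Integral
import Pool.Agent.Lib.MP_1a91b9_ntT.S7.Main

/-!
# Periods, file Lvalue: the two-adic valuation of `L(E/F, 1) / Ω`
-/

set_option autoImplicit false

namespace Pool.Agent.Lib.MP_1a91b9_ntT.Per

open NumberField IsDedekindDomain Pool.Agent.Lib.MP_1a91b9_ntT.S4 Pool.Agent.Lib.MP_1a91b9_nt

universe u

section

variable {A : ValuationSubring ℂ}

theorem two_comap (hA : Two A) : Two (A.comap (starRingEnd ℂ)) := by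
  intro h
  rw [ValuationSubring.mem_comap, map_inv₀, Complex.conj_ofNat] at h
  exact hA h

theorem val_one_of {x : ℂ} (hx : x ≠ 0) (h1 : x ∈ A) (h2 : x⁻¹ ∈ A) : A.valuation x = 1 := by
  rw [← A.valuation_le_one_iff] at h1 h2
  rw [map_inv₀] at h2
  exact le_antisymm h1 ((inv_le_one₀ (zero_lt_iff.2 ((map_ne_zero _).2 hx))).1 h2)

theorem of_val_one {x : ℂ} (h : A.valuation x = 1) : x ≠ 0 ∧ x ∈ A ∧ x⁻¹ ∈ A := by
  refine ⟨?_, ?_, ?_⟩
  · rintro rfl
    rw [map_zero] at h
    exact zero_ne_one h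
  · rw [← A.valuation_le_one_iff, h]
  · rw [← A.valuation_le_one_iff, map_inv₀, h, inv_one]

theorem val_conj_Om : A.valuation ((starRingEnd ℂ) Om) = A.valuation Om := by
  have h := congrArg A.valuation (Complex.mul_conj Om)
  rw [Complex.normSq_eq_norm_sq, Complex.ofReal_pow, map_mul, map_pow, val_norm_Om, pow_two] at h
  exact mul_left_cancel₀ ((map_ne_zero _).2 Om_ne_zero) h

theorem val_conj {x : ℂ} (h : (A.comap (starRingEnd ℂ)).valuation x = 1) :
    A.valuation ((starRingEnd ℂ) x) = 1 := by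
  obtain ⟨h0, h1, h2⟩ := of_val_one h
  rw [ValuationSubring.mem_comap] at h1 h2
  rw [map_inv₀] at h2
  exact val_one_of ((map_ne_zero _).2 h0) h1 h2

theorem val_of_div {x : ℂ} {n : ℕ} (h : A.valuation (x / Om ^ n) = 1) :
    A.valuation x = A.valuation Om ^ n := by
  rw [map_div₀, map_pow] at h
  exact (div_eq_one_iff_eq (pow_ne_zero _ ((map_ne_zero _).2 Om_ne_zero))).1 h

theorem val_conj_div {x : ℂ} {n : ℕ} (h : (A.comap (starRingEnd ℂ)).valuation (x / Om ^ n) = 1) :
    A.valuation ((starRingEnd ℂ) x) = A.valuation Om ^ n := by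
  have h1 := val_conj h
  rw [map_div₀ (starRingEnd ℂ), map_pow, map_div₀, map_pow, val_conj_Om] at h1
  exact (div_eq_one_iff_eq (pow_ne_zero _ ((map_ne_zero _).2 Om_ne_zero))).1 h1

end

/-- The two-adic valuation of `L(E/F, 1)`, towers above `K`. -/
theorem lvalK (F : Type u) [Field F] [NumberField F] [Algebra K F] (h : TowerK F) :
    ∃ g : ℂ → ℂ, Differentiable ℂ g ∧ (∀ s : ℂ, 2 < s.re → g s = (E F).LSeries s) ∧
      ∀ A : ValuationSubring ℂ, Two A → A.valuation (g 1) = A.valuation Om ^ Module.finrank ℚ F := by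
  obtain ⟨L, hL, hL1, hLW⟩ := S7.unitProp F h
  refine ⟨fun s => (starRingEnd ℂ) (L ((starRingEnd ℂ) s)) * L s,
    (differentiable_conj_conj hL).mul hL, fun s hs => ?_, fun A hA => ?_⟩
  · change (starRingEnd ℂ) (L ((starRingEnd ℂ) s)) * L s = _
    rw [LSeries_E (noCube3_tower F h) s hs, hL1 s hs, hL1 _ (by rw [Complex.conj_re]; exact hs),
      ← Lf_conj]
  · change A.valuation ((starRingEnd ℂ) (L ((starRingEnd ℂ) 1)) * L 1) = _
    have e : Module.finrank ℚ F = Module.finrank K F + Module.finrank K F := by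
      rw [← Module.finrank_mul_finrank ℚ K F, u4_finrank]
      ring
    rw [map_one, map_mul, val_conj_div (hLW _ (two_comap hA)), val_of_div (hLW _ hA), ← pow_add, e]

/-- The two-adic valuation of `L(E/N, 1)`, towers above `ℚ`. -/
theorem lval (N : Type u) [Field N] [NumberField N] (h : Tower N) :
    ∃ g : ℂ → ℂ, Differentiable ℂ g ∧ (∀ s : ℂ, 2 < s.re → g s = (E N).LSeries s) ∧
      ∀ A : ValuationSubring ℂ, Two A → A.valuation (g 1) = A.valuation Om ^ Module.finrank ℚ N := by
  by_cases hy : ∃ y : N, y ^ 2 = -3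
  · obtain ⟨y, hy⟩ := hy
    obtain ⟨_, -⟩ := S7.exists_algebraK N y hy
    refine lvalK N (S5.tower_towerK N N y hy (fun z => ⟨z, 0, ?_⟩) h)
    simp
  · push Not at hy
    obtain ⟨F, _, _, _, _, y, hy2, hom, hfr, hgen⟩ := S7.exists_up N hy
    obtain ⟨L, hL, hL1, hLW⟩ := S7.unitProp F (S5.tower_towerK N F y hy2 hgen h)
    have hn : ∀ x : N, algebraMap N F x ≠ algebraMap K F om := by
      intro x hx
      apply hy (2 * x + 1)
      apply (algebraMap N F).injective
      rw [map_pow, map_add, map_mul, map_one, map_ofNat, hx, map_neg, map_ofNat]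
      have h1 : algebraMap K F ((2 * om + 1) ^ 2) = algebraMap K F (-3) := by rw [S7.om_sq]
      rw [map_pow, map_add, map_mul, map_one, map_ofNat, map_neg, map_ofNat] at h1
      exact h1
    refine ⟨L, hL, fun s hs => by rw [hL1 s hs, LSeries_B hfr hn (noCube3_towerQ N h) s hs],
      fun A hA => ?_⟩
    have e : Module.finrank K F = Module.finrank ℚ N := by
      have h1 := Module.finrank_mul_finrank ℚ N F
      have h2 := Module.finrank_mul_finrank ℚ K F
      rw [hfr] at h1
      rw [u4_finrank] at h2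
      omega
    rw [val_of_div (hLW _ hA), e]

/-- The quotient of `L(E/N, 1)` and the product of the archimedean periods is a unit at all the
places above `2`. -/
theorem ratio_unit (N : Type u) [Field N] [NumberField N] (h : Tower N) :
    ∃ g : ℂ → ℂ, Differentiable ℂ g ∧ (∀ s : ℂ, 2 < s.re → g s = (E N).LSeries s) ∧
      ∀ A : ValuationSubring ℂ, Two A →
        A.valuation (g 1 / ((∏ v : InfinitePlace N, perAt (E N) v : ℝ) : ℂ)) = 1 := by
  obtain ⟨g, hg, hgs, hgA⟩ := lval N h
  refine ⟨g, hg, hgs, fun A hA => ?_⟩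
  rw [map_div₀, hgA A hA, val_prod hA]
  exact div_self (pow_ne_zero _ ((map_ne_zero _).2 Om_ne_zero))

end Pool.Agent.Lib.MP_1a91b9_ntT.Per
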