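import Pool.Agent.Lib.MP_1a91b9_ntT.P.Fib

/-!
# Periods, file Real: the real period of `E : y² + y = x³`
-/

set_option autoImplicit false

namespace Pool.Agent.Lib.MP_1a91b9_ntT.Per

open MeasureTheory Complex Filter Topology Set

noncomputable section

theorem tendsto_axis {u : ℂ} (hu : u ≠ 0) :
    Tendsto (fun t : ℝ => (u ^ 2 * PP.weierstrassP (u * t)).re) (𝓝[>] 0) atTop := by
  have h1 : Tendsto (fun t : ℝ => u * (t : ℂ)) (𝓝[>] 0) (𝓝[≠] 0) := by
    rw [tendsto_nhdsWithin_iff]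
    constructor
    · have h2 : ContinuousAt (fun t : ℝ => u * (t : ℂ)) 0 := by fun_prop
      have h3 := h2.tendsto
      rw [Complex.ofReal_zero, mul_zero] at h3
      exact h3.mono_left nhdsWithin_le_nhds
    · filter_upwards [self_mem_nhdsWithin] with t ht
      have ht0 : (0 : ℝ) < t := ht
      exact mul_ne_zero hu (by exact_mod_cast ht0.ne')
  have h2 := (Complex.continuous_re.tendsto 1).comp (tendsto_sq_P.comp h1)
  have h3 : Tendsto (fun t : ℝ => (t ^ 2)⁻¹) (𝓝[>] 0) atTop := by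
    refine tendsto_inv_nhdsGT_zero.comp ?_
    rw [tendsto_nhdsWithin_iff]
    constructor
    · have h2 : ContinuousAt (fun t : ℝ => t ^ 2) 0 := by fun_prop
      have h3 := h2.tendsto
      rw [zero_pow (by norm_num)] at h3
      exact h3.mono_left nhdsWithin_le_nhds
    · filter_upwards [self_mem_nhdsWithin] with t ht
      have ht0 : (0 : ℝ) < t := ht
      exact pow_pos ht0 2
  have h4 := h3.atTop_mul_pos (C := (1 : ℂ).re) (by norm_num) h2
  refine h4.congr' ?_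
  filter_upwards [self_mem_nhdsWithin] with t ht
  have ht0 : (0 : ℝ) < t := ht
  have e : (u * (t : ℂ)) ^ 2 * PP.weierstrassP (u * t) =
      ((t ^ 2 : ℝ) : ℂ) * (u ^ 2 * PP.weierstrassP (u * t)) := by
    push_cast
    ring
  show (t ^ 2)⁻¹ * ((u * (t : ℂ)) ^ 2 * PP.weierstrassP (u * t)).re = _
  rw [e, Complex.re_ofReal_mul, ← mul_assoc, inv_mul_cancel₀ (pow_ne_zero 2 ht0.ne'), one_mul]

/-! ### The sign of `g₃` -/

theorem real_mem {x : ℝ} : (x : ℂ) ∈ PP.lattice ↔ ∃ m : ℤ, x = m := by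
  rw [mem_coord]
  have e : (x : ℂ) = (x : ℂ) + ((0 : ℝ) : ℂ) * zt := by push_cast; ring
  rw [e, ss_mk, tt_mk]
  constructor
  · exact fun h => h.1
  · exact fun h => ⟨h, 0, by norm_num⟩

theorem P_real (x : ℝ) : (PP.weierstrassP x) = ((PP.weierstrassP x).re : ℂ) := by
  have h := P_conj (x : ℂ)
  rw [Complex.conj_ofReal] at h
  exact (Complex.conj_eq_iff_re.1 h.symm).symm

theorem P_real_ne {x : ℝ} (h0 : 0 < x) (h1 : x ≤ 1 / 2) : PP.weierstrassP x ≠ 0 := by
  intro h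
  rcases h1.lt_or_eq with h2 | h2
  · have hw : 2 * (x : ℂ) ∉ PP.lattice := by
      intro hm
      have e : 2 * (x : ℂ) = ((2 * x : ℝ) : ℂ) := by push_cast; rfl
      rw [e, real_mem] at hm
      obtain ⟨m, hm⟩ := hm
      have e2 := int_zero hm (by linarith) (by linarith)
      linarith
    have hz : zt * (x : ℂ) ∉ PP.lattice := by
      rw [S3.zt_mul_mem]
      exact S3.notMem_of_two_mul hw
    have hP : PP.weierstrassP (zt * x) = PP.weierstrassP x := by
      rw [S3.P_zt, h, mul_zero]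
    rcases P_inj hw hz hP with h3 | h3
    · have e : zt * (x : ℂ) - x = ((-x : ℝ) : ℂ) + (x : ℝ) * zt := by push_cast; ring
      rw [e, mem_coord, ss_mk, tt_mk] at h3
      obtain ⟨n, hn⟩ := h3.2
      have e2 := int_zero hn (by linarith) (by linarith)
      linarith
    · have e : zt * (x : ℂ) + x = ((x : ℝ) : ℂ) + (x : ℝ) * zt := by ring
      rw [e, mem_coord, ss_mk, tt_mk] at h3
      obtain ⟨n, hn⟩ := h3.2
      have e2 := int_zero hn (by linarith) (by linarith)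
      linarith
  · have e : (x : ℂ) = 1 / 2 := by rw [h2]; push_cast; ring
    rw [e] at h
    have h3 := S3.diff_eq S3.half_notMem
    have h4 : PP.derivWeierstrassP (1 / 2) = 0 := S3.Q_half (by norm_num [S3.one_mem])
    rw [h, h4] at h3
    exact pow_ne_zero 6 Om_ne_zero (by linear_combination -h3)

theorem P_half_pos : 0 < (PP.weierstrassP (1 / 2)).re := by
  by_contra hc
  push Not at hc
  have h1 := tendsto_axis (u := 1) one_ne_zero
  have h2 : ∀ᶠ t : ℝ in 𝓝[>] 0, t < 1 / 2 :=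
    (eventually_lt_nhds (by norm_num : (0 : ℝ) < 1 / 2)).filter_mono nhdsWithin_le_nhds
  obtain ⟨t, ⟨ht1, ht2⟩, ht3⟩ :=
    ((h1.eventually (eventually_gt_atTop 0)).and h2 |>.and self_mem_nhdsWithin).exists
  have ht3' : 0 < t := ht3
  rw [one_pow, one_mul, one_mul] at ht1
  have hcont : ContinuousOn (fun x : ℝ => (PP.weierstrassP x).re) (Icc t (1 / 2)) := by
    intro x hx
    have hxL : (x : ℂ) ∉ PP.lattice := by
      rw [real_mem]
      rintro ⟨m, hm⟩
      have e2 := int_zero hm (by linarith [hx.1]) (by linarith [hx.2])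
      linarith [hx.1]
    exact (Complex.continuous_re.continuousAt.comp
      ((S3.continuousAt_P hxL).comp Complex.continuous_ofReal.continuousAt)).continuousWithinAt
  have h3 := intermediate_value_Icc' ht2.le hcont
  obtain ⟨x, hx, hx0⟩ := h3 ⟨by
    have e : (((1 / 2 : ℝ)) : ℂ) = 1 / 2 := by push_cast; ring
    rw [e]
    exact hc, ht1.le⟩
  apply P_real_ne (x := x) (by linarith [hx.1]) hx.2
  rw [P_real]
  show (((fun x : ℝ => (PP.weierstrassP x).re) x : ℝ) : ℂ) = 0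
  rw [hx0, Complex.ofReal_zero]

/-- `g₃` as a real number. -/
def g3r : ℝ := PP.g₃.re

theorem g3r_eq : (g3r : ℂ) = PP.g₃ := Complex.conj_eq_iff_re.1 g3_conj

theorem g3r_pos : 0 < g3r := by
  have h3 := S3.diff_eq S3.half_notMem
  have h4 : PP.derivWeierstrassP (1 / 2) = 0 := S3.Q_half (by norm_num [S3.one_mem])
  have e : (((1 / 2 : ℝ)) : ℂ) = 1 / 2 := by push_cast; ring
  have h5 := P_real (1 / 2)
  rw [e] at h5
  rw [h4, Om_pow, h5, ← g3r_eq] at h3
  have h6 : g3r = 4 * (PP.weierstrassP (1 / 2)).re ^ 3 := by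
    have h7 : (g3r : ℂ) = ((4 * (PP.weierstrassP (1 / 2)).re ^ 3 : ℝ) : ℂ) := by
      push_cast
      linear_combination h3
    exact_mod_cast h7
  rw [h6]
  exact mul_pos (by norm_num) (pow_pos P_half_pos 3)

theorem norm_Om_pow : ‖Om‖ ^ 6 = g3r := by
  rw [← norm_pow, Om_pow, norm_neg, ← g3r_eq, Complex.norm_real, Real.norm_eq_abs,
    abs_of_pos g3r_pos]

theorem Om_pow_real : Om ^ 6 = -((‖Om‖ ^ 6 : ℝ) : ℂ) := by
  rw [norm_Om_pow, Om_pow, g3r_eq]

/-! ### The imaginary axis -/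

theorem imag_mem {y : ℝ} : I * (y : ℂ) ∈ PP.lattice ↔ ∃ m : ℤ, y = m * Real.sqrt 3 := by
  rw [S3.mem_PP]
  constructor
  · rintro ⟨m, n, h⟩
    have h1 := congrArg Complex.re h
    have h2 := congrArg Complex.im h
    simp at h1 h2
    rw [zt_re] at h1
    rw [zt_im] at h2
    have h3 : (n : ℝ) = 2 * m := by linarith
    refine ⟨m, ?_⟩
    rw [← h2, h3]
    ring
  · rintro ⟨m, hm⟩
    refine ⟨m, 2 * m, ?_⟩
    apply Complex.ext
    · simp
      rw [zt_re]
      ring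
    · simp
      rw [zt_im, hm]
      ring

/-- The real function `-℘(i y)`. -/
def qq (y : ℝ) : ℝ := -(PP.weierstrassP (I * y)).re

/-- Its derivative. -/
def qd (y : ℝ) : ℝ := (PP.derivWeierstrassP (I * y)).im

theorem conj_imag (y : ℝ) : (starRingEnd ℂ) (I * y) = -(I * y) := by
  rw [map_mul, Complex.conj_I, Complex.conj_ofReal, neg_mul]

theorem P_imag (y : ℝ) : PP.weierstrassP (I * y) = -(qq y : ℂ) := by
  have h := P_conj (I * y)
  rw [conj_imag, PeriodPair.weierstrassP_neg] at h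
  have h1 := (Complex.conj_eq_iff_re.1 h.symm).symm
  rw [h1, qq]
  push_cast
  ring

theorem Q_imag (y : ℝ) : PP.derivWeierstrassP (I * y) = I * (qd y : ℂ) := by
  have h := Q_conj (I * y)
  rw [conj_imag, PeriodPair.derivWeierstrassP_neg] at h
  have h1 := congrArg Complex.re h
  rw [Complex.neg_re, Complex.conj_re] at h1
  have h2 : (PP.derivWeierstrassP (I * y)).re = 0 := by linarith
  apply Complex.ext
  · simp [h2]
  · simp [qd]

theorem qq_curve {y : ℝ} (hy : I * (y : ℂ) ∉ PP.lattice) : qd y ^ 2 = 4 * qq y ^ 3 + g3r := by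
  have h := S3.diff_eq hy
  rw [P_imag, Q_imag, Om_pow, ← g3r_eq] at h
  have h1 : ((qd y ^ 2 : ℝ) : ℂ) = ((4 * qq y ^ 3 + g3r : ℝ) : ℂ) := by
    push_cast
    linear_combination -h + (qd y : ℂ) ^ 2 * Complex.I_sq
  exact_mod_cast h1

theorem hasDerivAt_qq {y : ℝ} (hy : I * (y : ℂ) ∉ PP.lattice) : HasDerivAt qq (qd y) y := by
  have h1 : HasDerivAt (fun t : ℂ => PP.weierstrassP (I * t))
      (PP.derivWeierstrassP (I * y) * (I * 1)) (y : ℂ) :=
    (S3.hasDerivAt_P hy).comp (y : ℂ) ((hasDerivAt_id (y : ℂ)).const_mul I)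
  have h2 := h1.real_of_complex.neg
  have h3 : -(PP.derivWeierstrassP (I * y) * (I * 1)).re = qd y := by
    rw [Q_imag]
    simp
  rw [h3] at h2
  exact h2

theorem imag_two {y : ℝ} (h0 : 0 < y) (h1 : y < Real.sqrt 3 / 2) :
    2 * (I * (y : ℂ)) ∉ PP.lattice := by
  have e : 2 * (I * (y : ℂ)) = I * ((2 * y : ℝ) : ℂ) := by push_cast; ring
  rw [e, imag_mem]
  rintro ⟨m, hm⟩
  have h3 : 0 < Real.sqrt 3 := Real.sqrt_pos.2 (by norm_num)
  have h4 : 2 * y / Real.sqrt 3 = m := by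
    rw [hm]
    field_simp
  have h5 := int_zero h4 (by
    have : 0 < 2 * y / Real.sqrt 3 := by positivity
    linarith) (by rw [div_lt_one h3]; linarith)
  have : 0 < 2 * y / Real.sqrt 3 := by positivity
  linarith

theorem qq_injOn : InjOn qq (Ioo 0 (Real.sqrt 3 / 2)) := by
  intro y hy z hz h
  have h3 : 0 < Real.sqrt 3 := Real.sqrt_pos.2 (by norm_num)
  have hP : PP.weierstrassP (I * y) = PP.weierstrassP (I * z) := by rw [P_imag, P_imag, h]
  rcases P_inj (imag_two hz.1 hz.2) (S3.notMem_of_two_mul (imag_two hy.1 hy.2)) hP with h1 | h1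
  · have e : I * (y : ℂ) - I * z = I * ((y - z : ℝ) : ℂ) := by push_cast; ring
    rw [e, imag_mem] at h1
    obtain ⟨m, hm⟩ := h1
    have h4 : (y - z) / Real.sqrt 3 = m := by
      rw [hm]
      field_simp
    have h5 := int_zero h4 (by rw [lt_div_iff₀ h3]; linarith [hy.1, hz.2])
      (by rw [div_lt_one h3]; linarith [hy.2, hz.1])
    rcases div_eq_zero_iff.1 h5 with h6 | h6
    · linarith
    · linarith
  · have e : I * (y : ℂ) + I * z = I * ((y + z : ℝ) : ℂ) := by push_cast; ring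
    rw [e, imag_mem] at h1
    obtain ⟨m, hm⟩ := h1
    have h4 : (y + z) / Real.sqrt 3 = m := by
      rw [hm]
      field_simp
    have h5 := int_zero h4 (by rw [lt_div_iff₀ h3]; linarith [hy.1, hz.1])
      (by rw [div_lt_one h3]; linarith [hy.2, hz.2])
    rcases div_eq_zero_iff.1 h5 with h6 | h6
    · linarith [hy.1, hz.1]
    · linarith

theorem qd_ne {y : ℝ} (hy : y ∈ Ioo 0 (Real.sqrt 3 / 2)) : qd y ≠ 0 := by
  intro h
  apply Q_ne (imag_two hy.1 hy.2)
  rw [Q_imag, h, Complex.ofReal_zero, mul_zero]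

theorem qq_end : 4 * qq (Real.sqrt 3 / 2) ^ 3 + g3r = 0 := by
  have h3 : 0 < Real.sqrt 3 := Real.sqrt_pos.2 (by norm_num)
  have h1 : I * ((Real.sqrt 3 / 2 : ℝ) : ℂ) ∉ PP.lattice := by
    rw [imag_mem]
    rintro ⟨m, hm⟩
    have h4 : (1 / 2 : ℝ) = m := by
      have h5 : Real.sqrt 3 * (1 / 2 - m) = 0 := by linarith
      rcases mul_eq_zero.1 h5 with h6 | h6
      · exact absurd h6 h3.ne'
      · linarith
    have h5 := int_zero h4 (by norm_num) (by norm_num)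
    norm_num at h5
  have h2 : 2 * (I * ((Real.sqrt 3 / 2 : ℝ) : ℂ)) ∈ PP.lattice := by
    have e : 2 * (I * ((Real.sqrt 3 / 2 : ℝ) : ℂ)) = I * ((Real.sqrt 3 : ℝ) : ℂ) := by
      push_cast
      ring
    rw [e, imag_mem]
    exact ⟨1, by push_cast; ring⟩
  have h4 := S3.Q_half h2
  rw [Q_imag] at h4
  have h5 : (qd (Real.sqrt 3 / 2) : ℂ) = 0 := by
    rcases mul_eq_zero.1 h4 with h6 | h6
    · exact absurd h6 Complex.I_ne_zero
    · exact h6
  have h6 : qd (Real.sqrt 3 / 2) = 0 := by exact_mod_cast h5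
  rw [← qq_curve h1, h6]
  ring

theorem imag_notMem {y : ℝ} (h0 : 0 < y) (h1 : y ≤ Real.sqrt 3 / 2) :
    I * (y : ℂ) ∉ PP.lattice := by
  have h3 : 0 < Real.sqrt 3 := Real.sqrt_pos.2 (by norm_num)
  rw [imag_mem]
  rintro ⟨m, hm⟩
  have h4 : y / Real.sqrt 3 = m := by
    rw [hm]
    field_simp
  have h6 : 0 < y / Real.sqrt 3 := by positivity
  have h5 := int_zero h4 (by linarith) (by rw [div_lt_one h3]; linarith)
  linarith

theorem qq_image : qq '' (Ioo 0 (Real.sqrt 3 / 2)) = {x : ℝ | 0 < 4 * x ^ 3 + g3r} := by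
  have h3 : 0 < Real.sqrt 3 := Real.sqrt_pos.2 (by norm_num)
  ext c
  constructor
  · rintro ⟨y, hy, rfl⟩
    show 0 < 4 * qq y ^ 3 + g3r
    rw [← qq_curve (imag_notMem hy.1 hy.2.le)]
    exact lt_of_le_of_ne (sq_nonneg _) (pow_ne_zero 2 (qd_ne hy)).symm
  · intro hc
    have hc' : 0 < 4 * c ^ 3 + g3r := hc
    have hq := qq_end
    have h1 : qq (Real.sqrt 3 / 2) < c := by
      by_contra hn
      push Not at hn
      have h2 : c ^ 3 ≤ qq (Real.sqrt 3 / 2) ^ 3 := 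
        (Odd.strictMono_pow (by decide : Odd 3)).monotone hn
      linarith
    have h2 := tendsto_axis (u := I) Complex.I_ne_zero
    have h4 : ∀ᶠ t : ℝ in 𝓝[>] 0, t < Real.sqrt 3 / 2 :=
      (eventually_lt_nhds (by positivity)).filter_mono nhdsWithin_le_nhds
    obtain ⟨t, ⟨ht1, ht2⟩, ht3⟩ :=
      ((h2.eventually (eventually_gt_atTop c)).and h4 |>.and self_mem_nhdsWithin).exists
    have ht3' : 0 < t := ht3
    rw [P_imag, Complex.I_sq, neg_one_mul, neg_neg, Complex.ofReal_re] at ht1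
    have hcont : ContinuousOn qq (Icc t (Real.sqrt 3 / 2)) := fun x hx =>
      (hasDerivAt_qq (imag_notMem (ht3'.trans_le hx.1) hx.2)).continuousAt.continuousWithinAt
    obtain ⟨x, hx, hx0⟩ := intermediate_value_Icc' ht2.le hcont ⟨h1.le, ht1.le⟩
    refine ⟨x, ⟨ht3'.trans_le hx.1, lt_of_le_of_ne hx.2 ?_⟩, hx0⟩
    intro he
    rw [he] at hx0
    linarith

/-! ### The integral -/

theorem jacR {y : ℝ} (hy : y ∈ Ioo 0 (Real.sqrt 3 / 2)) :
    |qd y| • (Real.sqrt (4 * qq y ^ 3 + g3r))⁻¹ = 1 := by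
  rw [← qq_curve (imag_notMem hy.1 hy.2.le), Real.sqrt_sq_eq_abs, smul_eq_mul,
    mul_inv_cancel₀ (abs_ne_zero.2 (qd_ne hy))]

theorem g_zero {x : ℝ} (hx : x ∉ {x : ℝ | 0 < 4 * x ^ 3 + g3r}) :
    (Real.sqrt (4 * x ^ 3 + g3r))⁻¹ = 0 := by
  have h : 4 * x ^ 3 + g3r ≤ 0 := not_lt.1 hx
  rw [Real.sqrt_eq_zero_of_nonpos h, inv_zero]

theorem integrable_g3 : Integrable (fun x : ℝ => (Real.sqrt (4 * x ^ 3 + g3r))⁻¹) := by
  have h1 := (integrableOn_image_iff_integrableOn_abs_deriv_smul measurableSet_Ioo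
    (fun y hy => (hasDerivAt_qq (imag_notMem hy.1 hy.2.le)).hasDerivWithinAt) qq_injOn
    (fun x : ℝ => (Real.sqrt (4 * x ^ 3 + g3r))⁻¹)).2 (by
      have h2 : IntegrableOn (fun _ : ℝ => (1 : ℝ)) (Ioo 0 (Real.sqrt 3 / 2)) :=
        integrableOn_const (by rw [Real.volume_Ioo]; exact ENNReal.ofReal_ne_top)
      exact h2.congr_fun (fun z hz => (jacR hz).symm) measurableSet_Ioo)
  rw [qq_image] at h1
  exact (integrableOn_iff_integrable_of_support_subset fun x hx => by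
    by_contra hn
    exact hx (g_zero hn)).1 h1

theorem integral_g3 : ∫ x : ℝ, (Real.sqrt (4 * x ^ 3 + g3r))⁻¹ = Real.sqrt 3 / 2 := by
  have h1 := integral_image_eq_integral_abs_deriv_smul measurableSet_Ioo
    (fun y hy => (hasDerivAt_qq (imag_notMem hy.1 hy.2.le)).hasDerivWithinAt) qq_injOn
    (fun x : ℝ => (Real.sqrt (4 * x ^ 3 + g3r))⁻¹)
  rw [qq_image, setIntegral_congr_fun measurableSet_Ioo (fun z hz => jacR hz), setIntegral_const,
    smul_eq_mul, measureReal_def, Real.volume_Ioo, sub_zero,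
    ENNReal.toReal_ofReal (by positivity), mul_one,
    setIntegral_eq_integral_of_forall_compl_eq_zero (fun x hx => g_zero hx)] at h1
  exact h1

theorem scale (x : ℝ) : (Real.sqrt (4 * (‖Om‖ ^ 2 * x) ^ 3 + g3r))⁻¹ =
    (‖Om‖ ^ 3)⁻¹ * (Real.sqrt (4 * x ^ 3 + 1))⁻¹ := by
  have h0 : 0 < ‖Om‖ := norm_pos_iff.2 Om_ne_zero
  have e : 4 * (‖Om‖ ^ 2 * x) ^ 3 + g3r = (‖Om‖ ^ 3) ^ 2 * (4 * x ^ 3 + 1) := by
    rw [← norm_Om_pow]
    ring
  rw [e, Real.sqrt_mul (by positivity), Real.sqrt_sq (by positivity), mul_inv]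

theorem integrable_h : Integrable (fun x : ℝ => (Real.sqrt (4 * x ^ 3 + 1))⁻¹) := by
  have h0 : 0 < ‖Om‖ := norm_pos_iff.2 Om_ne_zero
  have h1 := integrable_g3.comp_mul_left' (pow_ne_zero 2 h0.ne')
  simp only [scale] at h1
  have h2 := h1.const_mul (‖Om‖ ^ 3)
  refine h2.congr (ae_of_all _ fun x => ?_)
  show ‖Om‖ ^ 3 * ((‖Om‖ ^ 3)⁻¹ * (Real.sqrt (4 * x ^ 3 + 1))⁻¹) = _
  rw [← mul_assoc, mul_inv_cancel₀ (pow_ne_zero 3 h0.ne'), one_mul]

theorem integral_h : ∫ x : ℝ, (Real.sqrt (4 * x ^ 3 + 1))⁻¹ = Real.sqrt 3 / 2 * ‖Om‖ := by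
  have h0 : 0 < ‖Om‖ := norm_pos_iff.2 Om_ne_zero
  have h1 := Measure.integral_comp_mul_left
    (fun x : ℝ => (Real.sqrt (4 * x ^ 3 + g3r))⁻¹) (‖Om‖ ^ 2)
  simp only [scale] at h1
  rw [integral_const_mul, integral_g3, abs_of_pos (by positivity), smul_eq_mul] at h1
  have h2 : ‖Om‖ ^ 3 * ((‖Om‖ ^ 3)⁻¹ * ∫ x : ℝ, (Real.sqrt (4 * x ^ 3 + 1))⁻¹) =
      ‖Om‖ ^ 3 * ((‖Om‖ ^ 2)⁻¹ * (Real.sqrt 3 / 2)) := by rw [h1]
  rw [← mul_assoc, mul_inv_cancel₀ (pow_ne_zero 3 h0.ne'), one_mul] at h2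
  rw [h2]
  field_simp

/-- The real period. -/
theorem perR_E : perR (E ℝ) = Real.sqrt 3 * ‖Om‖ := by
  rw [perR]
  simp only [fib_R]
  rw [integral_const_mul, integral_h]
  ring

theorem integrable_R : Integrable (fun x : ℝ => ∑' y : {y : ℝ // (E ℝ).toAffine.Equation x y},
    |2 * (y : ℝ) + (E ℝ).a₁ * x + (E ℝ).a₃|⁻¹) := by
  simp only [fib_R]
  exact integrable_h.const_mul 2

end

end Pool.Agent.Lib.MP_1a91b9_ntT.Per
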